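import Pool.Agent.Z15P.Rel.Stm

/-!
Comparison of the definitions.
-/

set_option autoImplicit false

open FF FF.PP MvPolynomial Pool.Agent.Z15P.Z15.H Pool.Agent.Z15P.Z15.Chow

namespace Pool.Agent.Z15P.Rel

theorem isReduction_red' {K M : Type} [Field K] [Field M] [Algebra K M] (v : Place K M) :
    IsReduction v (v.red : M → v.RF) where
  add := fun _ _ hx hy => v.red_add hx hy
  mul := fun _ _ hx hy => v.red_mul hx hy
  const := fun _ => rfl
  zero := fun _ hx => v.red_eq_zero_iff hx
  surj := fun z => by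
    obtain ⟨x, hx, h⟩ := v.red_surjective z
    exact ⟨x, hx, h⟩

theorem t_X_FIN : X_FIN := by
  intro K _ μ ν γ α G F l
  refine (AddSubgroup.closure_le _).2 ?_
  rintro D ⟨M, _, _, t, x, h, hM, hpt, hh, T, R, hR, hT, rfl⟩
  classical
  refine AddSubgroup.subset_closure ⟨M, inferInstance, inferInstance, t, x, h, hM.1, hM.2, hpt, hh,
    T, fun v => if Algebra.trdeg K v.RF = l then cyc K (R v) else 0, fun v => ?_, fun v => ?_, ?_⟩
  · obtain ⟨h0, c, hc, h1⟩ := hR v
    have h2 : (fun i => v.red (c * seg t x i)) = R v := funext fun i => (h1 i).2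
    refine ⟨v.RF, inferInstance, inferInstance, v.red, c, isReduction_red' v, hc, fun i => (h1 i).1,
      by rw [h2]; exact h0, ?_⟩
    by_cases h3 : Algebra.trdeg K v.RF = l
    · left
      refine ⟨h3, ?_⟩
      rw [h2]
      exact if_pos h3
    · right
      exact ⟨h3, if_neg h3⟩
  · rw [hT]
    constructor
    · rintro ⟨h1, h2, h3⟩
      exact ⟨h2, by simp only [if_pos h1]; exact h3⟩
    · rintro ⟨h1, h2⟩
      by_cases h3 : Algebra.trdeg K v.RF = l
      · simp only [if_pos h3] at h2
        exact ⟨h3, h1, h2⟩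
      · simp only [if_neg h3] at h2
        exact absurd rfl h2
  · refine Finset.sum_congr rfl fun v hv => ?_
    simp only [if_pos ((hT v).1 hv).1]

end Pool.Agent.Z15P.Rel
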