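import Pool.Agent.T2h20.X15.SPEC

/-!
Flags in the fibres of a family.
-/

set_option autoImplicit false

open FF FF.PP MvPolynomial Pool.Agent.Z15P.Z15.H Pool.Agent.Z15P.Z15.J Pool.Agent.Z15P.Z15.J.Stm
  Pool.Agent.Z15P.Z15.S Pool.Agent.Z15P.Z15.W

namespace Pool.Agent.Z15P.Rel

open Pool.Agent.Z15P.T2h64.H15 (ratio_scale ratio_map)

/-- values of the specialization -/
theorem aeval_spec {K μ ν E A : Type} [Field K] [Field E] [Algebra K E] [CommRing A] [Algebra E A]
    [Algebra K A] [IsScalarTower K E A] (t : μ → E) (v : ν → A)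
    (P : MvPolynomial ν (MvPolynomial μ K)) : aeval v (spec t P) =
      eval₂ (aeval (fun i => algebraMap E A (t i)) : MvPolynomial μ K →ₐ[K] A).toRingHom v P := by
  have h : (algebraMap E A).comp (aeval t : MvPolynomial μ K →ₐ[K] E).toRingHom =
      (aeval (fun i => algebraMap E A (t i)) : MvPolynomial μ K →ₐ[K] A).toRingHom := by
    refine RingHom.ext fun G => ?_
    exact (aeval_algebraMap_apply A t G).symm
  unfold spec
  rw [aeval_def, eval₂_map, h]

section

variable {K K1 Ω kb μ ν : Type} [Field K] [Field K1] [Field Ω] [Field kb] [Algebra K K1]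
  [Algebra K kb] [Algebra K Ω] [Algebra K1 Ω] [Algebra kb Ω] [IsScalarTower K K1 Ω]
  [IsScalarTower K kb Ω]

/-- transfer of a polynomial identity between subfields of `Ω` -/
theorem van_transfer (t1 : μ → K1) (tb : μ → kb)
    (h1 : ∀ i, algebraMap K1 Ω (t1 i) = algebraMap kb Ω (tb i)) (Λ1 : ℕ → ν → K1)
    (Λb : ℕ → ν → kb) (s : ℕ)
    (h2 : ∀ j ≤ s, ∀ i, algebraMap K1 Ω (Λ1 j i) = algebraMap kb Ω (Λb j i))
    (P : MvPolynomial ν (MvPolynomial μ K))
    (hv : ∀ (A : Type) [CommRing A] [Algebra kb A] (c : ℕ → A),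
      aeval (fun i => ∑ j ∈ Finset.range (s + 1), c j * algebraMap kb A (Λb j i)) (spec tb P) = 0)
    (A : Type) [CommRing A] [Algebra K1 A] (c : ℕ → A) :
    aeval (fun i => ∑ j ∈ Finset.range (s + 1), c j * algebraMap K1 A (Λ1 j i)) (spec t1 P) = 0 := by
  obtain ⟨U, hU⟩ : ∃ U : MvPolynomial ℕ K1, U = aeval (fun i => ∑ j ∈ Finset.range (s + 1),
      (X j : MvPolynomial ℕ K1) * algebraMap K1 (MvPolynomial ℕ K1) (Λ1 j i)) (spec t1 P) :=
    ⟨_, rfl⟩
  have hU0 : U = 0 := by
    apply map_injective (algebraMap K1 Ω) (algebraMap K1 Ω).injective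
    rw [map_zero, hU, aeval_spec, eval₂_comp_left]
    have e := hv (MvPolynomial ℕ Ω) (fun j => X j)
    rw [aeval_spec] at e
    rw [← e]
    congr 1
    · refine MvPolynomial.ringHom_ext (fun a => ?_) fun i => ?_
      · show MvPolynomial.map (algebraMap K1 Ω) (aeval (fun i => algebraMap K1 (MvPolynomial ℕ K1)
          (t1 i)) (C a)) = aeval (fun i => algebraMap kb (MvPolynomial ℕ Ω) (tb i)) (C a)
        rw [algHom_C, algHom_C, MvPolynomial.algebraMap_apply, MvPolynomial.algebraMap_apply, map_C,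
          ← IsScalarTower.algebraMap_apply K K1 Ω]
      · show MvPolynomial.map (algebraMap K1 Ω) (aeval (fun i => algebraMap K1 (MvPolynomial ℕ K1)
          (t1 i)) (X i)) = aeval (fun i => algebraMap kb (MvPolynomial ℕ Ω) (tb i)) (X i)
        rw [aeval_X, aeval_X, MvPolynomial.algebraMap_apply, MvPolynomial.algebraMap_apply, map_C]
        rw [Algebra.algebraMap_self, RingHom.id_apply, h1]
    · funext i
      show MvPolynomial.map (algebraMap K1 Ω) (∑ j ∈ Finset.range (s + 1), (X j : MvPolynomial ℕ K1) *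
        algebraMap K1 (MvPolynomial ℕ K1) (Λ1 j i)) = ∑ j ∈ Finset.range (s + 1),
          (X j : MvPolynomial ℕ Ω) * algebraMap kb (MvPolynomial ℕ Ω) (Λb j i)
      rw [map_sum]
      refine Finset.sum_congr rfl fun j hj => ?_
      rw [map_mul, map_X, MvPolynomial.algebraMap_apply, MvPolynomial.algebraMap_apply, map_C,
        Algebra.algebraMap_self, RingHom.id_apply, h2 j (by
          have := Finset.mem_range.1 hj
          omega)]
  have h3 : (aeval c : MvPolynomial ℕ K1 →ₐ[K1] A) U = 0 := by rw [hU0, map_zero]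
  rw [hU, comp_aeval_apply] at h3
  rw [← h3]
  congr 2
  funext i
  rw [map_sum]
  refine Finset.sum_congr rfl fun j _ => ?_
  rw [map_mul, aeval_X, AlgHom.commutes]

end

/-- algebraic elements and the fields of ratios -/
theorem alg_ratio {K E κ μ : Type} [Field K] [Field E] [Field κ] [Algebra K E] [Algebra K κ]
    [Algebra E κ] [IsScalarTower K E κ] (t : μ → E) (K1 : IntermediateField K κ) (t' : μ → K1)
    (c : E) (hc : c ≠ 0) (ht' : ∀ i, (t' i : κ) = algebraMap E κ (c * t i))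
    (hK1 : ∀ x : K1, IsAlgebraic (ratioField K t) (x : κ)) :
    Algebra.IsAlgebraic (ratioField K t') K1 ∧
      Algebra.trdeg K K1 = Algebra.trdeg K (ratioField K t) := by
  obtain ⟨φ, hφ⟩ : ∃ φ : E →ₐ[K] κ, ∀ x, φ x = algebraMap E κ x :=
    ⟨IsScalarTower.toAlgHom K E κ, fun _ => rfl⟩
  have e1 : (ratioField K t).map φ = (ratioField K t').map K1.val := by
    rw [← ratio_scale t c hc, ← ratio_map, ← ratio_map]
    congr 1
    funext i
    rw [hφ]
    exact (ht' i).symm
  let f : ratioField K t' ≃ₐ[K] ratioField K t :=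
    ((IntermediateField.equivMap (ratioField K t') K1.val).trans
      (IntermediateField.equivOfEq e1.symm)).trans
      (IntermediateField.equivMap (ratioField K t) φ).symm
  have hf : ∀ x : ratioField K t', algebraMap E κ (f x : E) = ((x : K1) : κ) := by
    intro x
    have h1 : (IntermediateField.equivMap (ratioField K t) φ) (f x) =
        (IntermediateField.equivOfEq e1.symm)
          (IntermediateField.equivMap (ratioField K t') K1.val x) := by
      simp only [f, AlgEquiv.trans_apply, AlgEquiv.apply_symm_apply]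
    have h2 := congrArg (fun y : (ratioField K t).map φ => (y : κ)) h1
    simp only [IntermediateField.coe_equivMap_apply] at h2
    rw [hφ] at h2
    rw [h2]
    rfl
  have hA : Algebra.IsAlgebraic (ratioField K t') K1 := by
    refine ⟨fun x => ?_⟩
    refine (hK1 x).of_ringHom_of_comp_eq f.toRingEquiv.toRingHom (K1.val : K1 →ₐ[K] κ)
      f.surjective (K1.val : K1 →ₐ[K] κ).injective ?_
    refine RingHom.ext fun y => ?_
    exact hf y
  refine ⟨hA, ?_⟩
  have h0 : Algebra.trdeg (ratioField K t') K1 = 0 := trdeg_eq_zero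
  rw [← f.trdeg_eq, ← trdeg_add_eq K (ratioField K t') (A := K1), h0, add_zero]

theorem t_X_FLAGi : X_FLAGi := by
  intro hSP hFL K _ _ μ ν γ α _ _ _ G F g e d b s m hR hd E _ _ t j0 δ htj htr
  classical
  obtain ⟨R0, hR0⟩ : ∃ R0 : IntermediateField K E, R0 = ratioField K t := ⟨_, rfl⟩
  obtain ⟨t0, ht0⟩ : ∃ t0 : μ → R0, ∀ i, (t0 i : E) = (t j0)⁻¹ * t i := by
    refine ⟨fun i => ⟨t i / t j0, ?_⟩, fun i => ?_⟩
    · rw [hR0]
      exact IntermediateField.subset_adjoin _ _ ⟨i, j0, rfl⟩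
    · show t i / t j0 = _
      rw [div_eq_mul_inv, mul_comm]
  -- the algebraic closure of the field of ratios
  let Ω := AlgebraicClosure E
  let kb : IntermediateField R0 Ω := algebraicClosure R0 Ω
  have hkb : IsAlgClosed kb := (algebraicClosure.isAlgClosure (F := R0) (E := Ω)).isAlgClosed
  have hinf : Infinite kb := Infinite.of_injective _ (algebraMap K kb).injective
  obtain ⟨tb, htb⟩ : ∃ tb : μ → kb, ∀ i, tb i = algebraMap R0 kb (t0 i) := ⟨_, fun _ => rfl⟩
  obtain ⟨Λ, hΛ⟩ := hFL kb ν α (fun a => spec tb (F a)) d b s m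
    ((hSP K μ ν γ α G F g e d b s m hR).1 kb tb) hd
  -- the finite extension of `E`
  let C : Set Ω := Set.range fun p : Fin (s + 1) × ν => ((Λ p.1 p.2 : kb) : Ω)
  have halg0 : ∀ x : kb, IsAlgebraic R0 (x : Ω) := fun x => mem_algebraicClosure_iff.1 x.2
  let κ : IntermediateField E Ω := IntermediateField.adjoin E C
  have hfin : FiniteDimensional E κ := by
    have hC : Finite C := Set.finite_range _
    refine IntermediateField.finiteDimensional_adjoin fun x hx => ?_
    exact (Algebra.IsAlgebraic.isAlgebraic x).isIntegral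
  obtain ⟨Λκ, hΛκ⟩ : ∃ Λκ : ℕ → ν → κ, ∀ j ≤ s, ∀ i, (Λκ j i : Ω) = (Λ j i : Ω) := by
    refine ⟨fun j i => if h : j ≤ s then ⟨(Λ j i : Ω), IntermediateField.subset_adjoin _ _
      ⟨(⟨j, Nat.lt_succ_of_le h⟩, i), rfl⟩⟩ else 0, fun j hj i => ?_⟩
    simp only [dif_pos hj]
  let S : Set κ := Set.range (fun i => algebraMap E κ ((t j0)⁻¹ * t i)) ∪
    Set.range (fun p : Fin (s + 1) × ν => Λκ p.1 p.2)
  let K1 : IntermediateField K κ := IntermediateField.adjoin K S
  have hEss : Algebra.EssFiniteType K K1 := by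
    rw [IntermediateField.essFiniteType_iff]
    exact IntermediateField.fg_adjoin_of_finite ((Set.finite_range _).union (Set.finite_range _))
  obtain ⟨t', ht'⟩ : ∃ t' : μ → K1, ∀ i, (t' i : κ) = algebraMap E κ ((t j0)⁻¹ * t i) :=
    ⟨fun i => ⟨_, IntermediateField.subset_adjoin _ _ (Or.inl ⟨i, rfl⟩)⟩, fun i => rfl⟩
  obtain ⟨Λ1, hΛ1⟩ : ∃ Λ1 : ℕ → ν → K1, ∀ j ≤ s, ∀ i, (Λ1 j i : κ) = Λκ j i := by
    refine ⟨fun j i => if h : j ≤ s then ⟨Λκ j i, IntermediateField.subset_adjoin _ _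
      (Or.inr ⟨(⟨j, Nat.lt_succ_of_le h⟩, i), rfl⟩)⟩ else 0, fun j hj i => ?_⟩
    simp only [dif_pos hj]
  -- algebraic over the ratios
  have halg : ∀ x : K1, IsAlgebraic R0 (x : κ) := by
    have hle : K1 ≤ (algebraicClosure R0 κ).restrictScalars K := by
      rw [IntermediateField.adjoin_le_iff]
      rintro _ (⟨i, rfl⟩ | ⟨p, rfl⟩)
      · refine mem_algebraicClosure_iff.2 ?_
        show IsAlgebraic R0 (algebraMap E κ ((t j0)⁻¹ * t i))
        rw [← ht0 i]
        exact isAlgebraic_algebraMap (A := κ) (t0 i)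
      · refine mem_algebraicClosure_iff.2 ?_
        have h1 : IsAlgebraic R0 (algebraMap κ Ω (Λκ p.1 p.2)) := by
          have h2 : algebraMap κ Ω (Λκ p.1 p.2) = (Λ p.1 p.2 : Ω) :=
            hΛκ p.1 (Nat.lt_succ_iff.1 p.1.2) p.2
          rw [h2]
          exact halg0 _
        exact (isAlgebraic_algebraMap_iff (algebraMap κ Ω).injective).1 h1
    exact fun x => mem_algebraicClosure_iff.1 (hle x.2)
  have hc : (t j0)⁻¹ ≠ 0 := inv_ne_zero htj
  subst hR0
  obtain ⟨h1, h2⟩ := alg_ratio t K1 t' _ hc ht' halg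
  have hFG : IsFG δ K K1 := ⟨hEss, h2.trans htr⟩
  refine ⟨κ, inferInstance, inferInstance, inferInstance, inferInstance, hfin, K1, t', Λ1, hFG, ht',
    h1, ⟨fun j hj h0 => ?_, fun j hj i hi => ?_, fun a => ?_⟩⟩
  · apply hΛ.ne j hj
    funext i
    have h3 : ((Λ j i : kb) : Ω) = 0 := by
      rw [← hΛκ j hj i, ← hΛ1 j hj i, h0]
      rfl
    exact Subtype.ext h3
  · have h3 := hΛ.supp j hj i hi
    apply Subtype.ext
    apply Subtype.ext
    show ((Λ1 j i : κ) : Ω) = 0
    rw [hΛ1 j hj i, hΛκ j hj i, h3]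
    rfl
  · have htow : IsScalarTower K K1 Ω := IsScalarTower.of_algebraMap_eq fun x => rfl
    have htow2 : IsScalarTower K kb Ω := IsScalarTower.of_algebraMap_eq fun x => rfl
    refine van_transfer (Ω := Ω) (kb := kb) t' tb (fun i => ?_) Λ1 Λ s (fun j hj i => ?_) (F a)
      (hΛ.van a)
    · show algebraMap κ Ω (t' i : κ) = algebraMap kb Ω (tb i)
      rw [ht', htb]
      show algebraMap E Ω ((t j0)⁻¹ * t i) = algebraMap E Ω (t0 i : E)
      rw [ht0]
    · show ((Λ1 j i : κ) : Ω) = (Λ j i : Ω)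
      rw [hΛ1 j hj i, hΛκ j hj i]

end Pool.Agent.Z15P.Rel
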