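import Pool.Agent.T2h20.X15.FLAG

/-!
The main theorem on cycles on families: induction on the dimension of the image in the base.
-/

set_option autoImplicit false

open FF FF.PP MvPolynomial Pool.Agent.Z15P.Z15.H Pool.Agent.Z15P.Z15.J Pool.Agent.Z15P.Z15.J.Stm
  Pool.Agent.Z15P.Z15.S Pool.Agent.Z15P.Z15.W

namespace Pool.Agent.Z15P.Rel

open Pool.Agent.Z15P.T2h62.J15 (nat_of_le)
open Pool.Agent.Z15P.T2h92.W15 (flag_li)

/-- elements with a positive multiple in `R` -/
def Sat0 {A : Type} [AddCommGroup A] (R : AddSubgroup A) : AddSubgroup A where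
  carrier := {c | ∃ N : ℕ, 0 < N ∧ N • c ∈ R}
  zero_mem' := ⟨1, one_pos, by rw [smul_zero]; exact zero_mem _⟩
  add_mem' := by
    rintro x y ⟨N, hN, hx⟩ ⟨N', hN', hy⟩
    refine ⟨N * N', Nat.mul_pos hN hN', ?_⟩
    rw [smul_add]
    refine add_mem ?_ ?_
    · rw [mul_comm, mul_smul]
      exact nsmul_mem hx _
    · rw [mul_smul]
      exact nsmul_mem hy _
  neg_mem' := by
    rintro x ⟨N, hN, hx⟩
    exact ⟨N, hN, by rw [smul_neg]; exact neg_mem hx⟩

theorem Sat0.of_nsmul {A : Type} [AddCommGroup A] {R : AddSubgroup A} {c : A} {N : ℕ} (hN : 0 < N)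
    (h : N • c ∈ Sat0 R) : c ∈ Sat0 R := by
  obtain ⟨M, hM, h1⟩ := h
  exact ⟨M * N, Nat.mul_pos hM hN, by rwa [mul_smul]⟩

theorem le_sat0 {A : Type} [AddCommGroup A] (R : AddSubgroup A) : R ≤ Sat0 R :=
  fun c h => ⟨1, one_pos, by rwa [one_smul]⟩

theorem t_X_MAINi : X_MAINi := by
  intro hSP hWD hTR hFL hP hC hLIN K _ _ μ ν γ α _ _ _ _ G F g e d b s m hR hd l hl
  classical
  obtain ⟨R, hRdef⟩ : ∃ R, R = RatX K l G F ⊔ AddSubgroup.closure (Flags K l G F) := ⟨_, rfl⟩
  rw [← hRdef]
  have key : ∀ δ : ℕ, ∀ (E : Type) [Field E] [Algebra K E] (t : μ → E) (x : ν → E),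
      Algebra.trdeg K E = l → IsPt G F t x → Algebra.trdeg K (ratioField K t) = δ →
      cyc K (seg t x) ∈ Sat0 R := by
    intro δ
    induction δ using Nat.strong_induction_on with
    | _ δ ih =>
      intro E _ _ t x hE hpt hδ
      obtain ⟨hS1, hS2, hS3, hS4⟩ := hSP K μ ν γ α G F g e d b s m hR
      obtain ⟨j0, hj0⟩ : ∃ j, t j ≠ 0 := by
        by_contra hcon
        push Not at hcon
        exact hpt.t_ne (funext hcon)
      obtain ⟨κ, _, _, _, _, hfin, K1, t', Λ, hFG, ht', halg, hflag⟩ :=
        hFL K μ ν γ α G F g e d b s m hR hd E t j0 δ hj0 hδ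
      have hinf : Infinite K1 := Infinite.of_injective _ (algebraMap K K1).injective
      have hc : (t j0)⁻¹ ≠ 0 := inv_ne_zero hj0
      obtain ⟨xκ, hxκ⟩ : ∃ xκ : ν → κ, xκ = fun i => algebraMap E κ (x i) := ⟨_, rfl⟩
      -- the point over `κ`
      have hcst : cst κ t' = fun i => algebraMap E κ ((t j0)⁻¹ * t i) := funext ht'
      have hptκ : IsPt G F (cst κ t') xκ := by
        have h1 := hS2 E t x (t j0)⁻¹ 1 hc one_ne_zero hpt
        have h2 := (hS3 E κ (IsScalarTower.toAlgHom K E κ) _ _).1 h1
        rw [hcst, hxκ]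
        have e1 : (fun i => (IsScalarTower.toAlgHom K E κ) ((1 : E) * x i)) =
            fun i => algebraMap E κ (x i) := by
          funext i
          rw [one_mul]
          rfl
        rw [e1] at h2
        exact h2
      have ht'0 : t' ≠ 0 := by
        intro h0
        apply hptκ.t_ne
        funext i
        show algebraMap K1 κ (t' i) = 0
        rw [h0]
        exact map_zero _
      have hbase : ∀ c, aeval t' (G c) = 0 := by
        intro c
        have h1 := hptκ.base c
        have h2 : aeval (cst κ t') (G c) = K1.val (aeval t' (G c)) := by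
          rw [comp_aeval_apply]
          rfl
        rw [h2] at h1
        exact (map_eq_zero K1.val).1 h1
      have hfib : ∀ a, aeval xκ (spec t' (F a)) = 0 := by
        intro a
        have h1 := hptκ.fib a
        have h2 := hS4 K1 κ K1.val t' (F a)
        have h3 : (fun i => K1.val (t' i)) = cst κ t' := rfl
        rw [h3] at h2
        rw [← h2, eval_map] at h1
        exact h1
      -- dimensions
      have hEκ : Algebra.trdeg K κ = l := by
        have h0 : Algebra.trdeg E κ = 0 := trdeg_eq_zero
        rw [← trdeg_add_eq K E (A := κ), h0, add_zero, hE]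
      have hsum : Algebra.trdeg K K1 + Algebra.trdeg K1 κ = (l : Cardinal) := by
        rw [← hEκ]
        exact trdeg_add_eq K K1
      obtain ⟨q, hq, hql⟩ := nat_of_le (a := Algebra.trdeg K1 κ) (n := l)
        (by rw [← hsum]; exact le_add_self)
      have hδq : δ + q = l := by
        rw [hFG.2, hq] at hsum
        exact_mod_cast hsum
      -- cycles on the generic fibre
      have hPq := hP s K1 ν α (fun a => spec t' (F a)) d b m (hS1 K1 t') Λ hflag q
        (hql.trans hl) κ xκ hq hptκ.x_ne hfib
      obtain ⟨N, hN, m0, hD⟩ := hPq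
      obtain ⟨Φ, hΦ⟩ := hWD K K1 μ ν t' ht'0
      have hT := hTR K K1 μ ν γ α δ q hFG G F g e d hR.bihom t' ht'0 hbase Φ hΦ _ hD
      have hql' : q + δ = l := by omega
      rw [map_sub, map_nsmul, map_zsmul, hΦ κ xκ hptκ.x_ne, hql'] at hT
      -- the linear subspace
      obtain ⟨L, _, _, ζ, hζ1, hζ2⟩ := exists_isGen K1 q
      have hli : LinearIndependent K1 (fun j : Fin (q + 1) => Λ j) := flag_li hflag (hql.trans hl)
      have hlin := hLIN K1 ν L q ζ Λ hζ1 hζ2 hli
      let _ : Algebra K L := ((algebraMap K1 L).comp (algebraMap K K1)).toAlgebra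
      have htow : IsScalarTower K K1 L := IsScalarTower.of_algebraMap_eq fun x => rfl
      have hΦl : Φ (lin K1 Λ q) ∈ Flags K l G F := by
        rw [← hlin, hΦ L _ (gp_ne_zero hli ζ)]
        refine ⟨q, K1, inferInstance, inferInstance, L, inferInstance, inferInstance,
          inferInstance, htow, t', Λ, ζ, ?_, ht'0, hbase, halg, hli, fun a c => ?_, hζ1, hζ2, rfl⟩
        · rw [hFG.2]
          exact_mod_cast hδq
        · have h1 := hflag.van a K1 (fun j => if h : j < q + 1 then c ⟨j, h⟩ else 0)
          rw [← MvPolynomial.coe_aeval_eq_eval]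
          refine Eq.trans ?_ h1
          show aeval _ _ = aeval _ _
          congr 2
          funext i
          rw [← Finset.sum_subset (s₁ := Finset.range (q + 1)), Finset.sum_range]
          · refine Finset.sum_congr rfl fun j _ => ?_
            rw [dif_pos j.2]
            rfl
          · intro j hj
            have := Finset.mem_range.1 hj
            exact Finset.mem_range.2 (by omega)
          · intro j _ hj
            rw [dif_neg (fun h => hj (Finset.mem_range.2 h)), zero_mul]
      -- the cycle over `κ`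
      have hVX : AddSubgroup.closure (VX K l δ G F) ≤ Sat0 R := by
        refine (AddSubgroup.closure_le _).2 ?_
        rintro c ⟨E2, _, _, t2, x2, hpt2, htr2, hlt, rfl⟩
        obtain ⟨δ', hδ', -⟩ := nat_of_le hlt.le
        rw [hδ'] at hlt
        exact ih δ' (by exact_mod_cast hlt) E2 t2 x2 htr2 hpt2 hδ'
      have hRX : RatX K l G F ≤ Sat0 R := le_trans (by rw [hRdef]; exact le_sup_left) (le_sat0 R)
      have hFlag : Φ (lin K1 Λ q) ∈ Sat0 R :=
        le_sat0 R (by
          rw [hRdef]
          exact AddSubgroup.mem_sup_right (AddSubgroup.subset_closure hΦl))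
      have h1 : N • cyc K (seg (cst κ t') xκ) - m0 • Φ (lin K1 Λ q) ∈ Sat0 R :=
        (sup_le hRX hVX) hT
      have h2 : N • cyc K (seg (cst κ t') xκ) ∈ Sat0 R := by
        have h3 := add_mem h1 (zsmul_mem hFlag m0)
        rwa [sub_add_cancel] at h3
      have h4 := Sat0.of_nsmul hN h2
      -- descent to `E`
      have h5 : cyc K (seg (cst κ t') xκ) = Module.finrank E κ • cyc K (seg t x) := by
        rw [← (hC K (μ × ν) E).2.2.1 κ (seg t x), ← (hC K (μ × ν) κ).1
          (fun i => algebraMap E κ (seg t x i)) (algebraMap E κ (t j0)⁻¹)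
          (by rwa [Ne, map_eq_zero])]
        congr 1
        funext i
        rw [hcst, hxκ]
        unfold seg
        simp only [map_mul]
        ring
      rw [h5] at h4
      exact Sat0.of_nsmul Module.finrank_pos h4
  intro E _ _ t x hE hpt
  have hle : Algebra.trdeg K (ratioField K t) ≤ l := by
    rw [← hE]
    exact trdeg_le_of_injective (ratioField K t).val (ratioField K t).val.injective
  obtain ⟨δ, hδ, -⟩ := nat_of_le hle
  exact key δ E t x hE hpt hδ

end Pool.Agent.Z15P.Rel
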