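import Pool.Agent.Z15P.Rel.Stm

/-!
The fibres of a family satisfy the hypotheses of `W_P`.
-/

set_option autoImplicit false

open FF FF.PP MvPolynomial Pool.Agent.Z15P.Z15.H Pool.Agent.Z15P.Z15.J Pool.Agent.Z15P.Z15.J.Stm
  Pool.Agent.Z15P.Z15.S Pool.Agent.Z15P.Z15.W

namespace Pool.Agent.Z15P.Rel

section

variable {K : Type} [Field K] {μ ν γ α : Type}

theorem aeval_smul_hom {R A ι : Type} [CommRing R] [CommRing A] [Algebra R A] (t : ι → A) (c : A)
    {G : MvPolynomial ι R} {n : ℕ} (hG : G.IsHomogeneous n) :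
    aeval (fun i => c * t i) G = c ^ n * aeval t G := by
  rw [aeval_def, aeval_def, eval₂_eq, eval₂_eq, Finset.mul_sum]
  refine Finset.sum_congr rfl fun s hs => ?_
  have h1 : s.degree = n := by
    have h2 := hG (mem_support_iff.1 hs)
    rw [← h2, Finsupp.degree_eq_weight_one]
    rfl
  have h3 : ∏ i ∈ s.support, (c * t i) ^ s i = c ^ n * ∏ i ∈ s.support, t i ^ s i := by
    simp only [mul_pow]
    rw [Finset.prod_mul_distrib, Finset.prod_pow_eq_pow_sum]
    congr 2
  rw [h3]
  ring

theorem spec_smul {E : Type} [Field E] [Algebra K E] (t : μ → E) (c : E)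
    {P : MvPolynomial ν (MvPolynomial μ K)} {n : ℕ} (hP : ∀ s, (P.coeff s).IsHomogeneous n) :
    spec (fun i => c * t i) P = C (c ^ n) * spec t P := by
  refine MvPolynomial.ext _ _ fun s => ?_
  unfold spec
  rw [coeff_C_mul, coeff_map, coeff_map]
  exact aeval_smul_hom t c (hP s)

theorem map_spec {E E' : Type} [Field E] [Field E'] [Algebra K E] [Algebra K E'] (φ : E →ₐ[K] E')
    (t : μ → E) (P : MvPolynomial ν (MvPolynomial μ K)) :
    MvPolynomial.map (φ : E →+* E') (spec t P) = spec (fun i => φ (t i)) P := by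
  have h : (φ : E →+* E').comp (aeval t : MvPolynomial μ K →ₐ[K] E).toRingHom =
      (aeval (fun i => φ (t i)) : MvPolynomial μ K →ₐ[K] E').toRingHom := by
    refine RingHom.ext fun G => ?_
    show φ (aeval t G) = aeval (fun i => φ (t i)) G
    rw [comp_aeval_apply]
  unfold spec
  rw [map_map, h]

theorem eval_spec_map {E E' : Type} [Field E] [Field E'] [Algebra K E] [Algebra K E']
    (φ : E →ₐ[K] E') (t : μ → E) (x : ν → E) (P : MvPolynomial ν (MvPolynomial μ K)) :
    eval (fun i => φ (x i)) (spec (fun i => φ (t i)) P) = φ (eval x (spec t P)) := by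
  rw [← map_spec φ t P, eval_map]
  have h := eval₂_comp_left (φ : E →+* E') (RingHom.id E) x (spec t P)
  rw [RingHom.comp_id] at h
  exact h.symm

theorem ne_map {E E' ι : Type} [Field E] [Field E'] [Algebra K E] [Algebra K E'] (φ : E →ₐ[K] E')
    (t : ι → E) : (fun i => φ (t i)) ≠ 0 ↔ t ≠ 0 := by
  rw [not_iff_not]
  constructor
  · intro h
    funext i
    have h1 := congrFun h i
    exact (map_eq_zero φ).1 h1
  · intro h
    funext i
    rw [h]
    exact map_zero φ

theorem ne_smul {E ι : Type} [Field E] (t : ι → E) (c : E) (hc : c ≠ 0) (ht : t ≠ 0) :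
    (fun i => c * t i) ≠ 0 := by
  intro h
  apply ht
  funext i
  exact (mul_eq_zero.1 (congrFun h i)).resolve_left hc

theorem t_X_SPEC : X_SPEC := by
  intro K _ μ ν γ α _ _ G F g e d b s m h
  refine ⟨?_, ?_, ?_, ?_⟩
  · intro E _ _ t
    refine ⟨fun a => (h.bihom.hom a).map _, h.pos, fun a => ?_, h.sizes⟩
    intro n hn i hi
    exact h.mix a n (support_map_subset _ _ hn) i hi
  · intro E _ _ t x c c' hc hc' hp
    refine ⟨ne_smul t c hc hp.t_ne, ne_smul x c' hc' hp.x_ne, fun a => ?_, fun a => ?_⟩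
    · rw [aeval_smul_hom t c (h.bihom.base a), hp.base a, mul_zero]
    · rw [spec_smul t c (h.bihom.thom a), map_mul, eval_C]
      have h1 : (spec t (F a)).IsHomogeneous (d a) := (h.bihom.hom a).map _
      have h2 := aeval_smul_hom (R := E) (A := E) x c' h1
      have h3 := hp.fib a
      have h4 : eval (fun i => c' * x i) (spec t (F a)) = 0 := by
        have e1 : ∀ y : ν → E, aeval y (spec t (F a)) = eval y (spec t (F a)) := fun y => by
          rw [← MvPolynomial.coe_aeval_eq_eval]
          rfl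
        rw [e1, e1, h3, mul_zero] at h2
        exact h2
      rw [h4, mul_zero]
  · intro E E' _ _ _ _ φ t x
    constructor
    · intro hp
      refine ⟨(ne_map φ t).2 hp.t_ne, (ne_map φ x).2 hp.x_ne, fun a => ?_, fun a => ?_⟩
      · rw [← comp_aeval_apply, hp.base a, map_zero]
      · rw [eval_spec_map, hp.fib a, map_zero]
    · intro hp
      refine ⟨(ne_map φ t).1 hp.t_ne, (ne_map φ x).1 hp.x_ne, fun a => ?_, fun a => ?_⟩
      · have h1 := hp.base a
        rw [← comp_aeval_apply] at h1
        exact (map_eq_zero φ).1 h1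
      · have h1 := hp.fib a
        rw [eval_spec_map] at h1
        exact (map_eq_zero φ).1 h1
  · intro E E' _ _ _ _ φ t P
    exact map_spec φ t P

end

end Pool.Agent.Z15P.Rel
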